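import Mathlib
import Pool.Agent.KS6_82.Crv.Asm
import Pool.Agent.KS6_82.Crv.Ex
import Pool.Agent.KS6_82.Att.Family

/-!
# MP_b15c9e_ag: Dynamical Mordell-Lang for curves, and in the plane, at points attracted to ramified cycles

Let `Φ = [f_0 : … : f_N]` be an endomorphism of `ℙ^N` of degree `d ≥ 2` over the complex numbers, and
let `[z]` be a point of `ℙ^N(ℂ)` which is fixed by `Φ^l`; `z` is scaled such that `f^l(z) = z` in the
cone `ℂ^(N+1)`. The differential of `Φ^l` at `[z]` is the endomorphism of `ℂ^(N+1) / ℂ z` induced by the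
derivative `L` of `f^l` at `z`; `L z = d^l z`. Let `μ_1, …, μ_m` be complex numbers such that
`∏ (L - μ_i)` maps `ℂ^(N+1)` to the line `ℂ z` (`Multipliers`); for example the eigenvalues of the
differential, with multiplicities. **They may be zero**: the cycle may be ramified. Suppose that the
nonzero `μ_i` are compatible: if two monomials in the `μ_i` with `0 < |μ_i| < 1` have the same absolute
value then their quotient is a root of unity. (This holds if there is only one such `μ_i`, if they are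
real, if their absolute values are multiplicatively independent.)

**Theorem.** Suppose that the orbit of `α` under `Φ^l` converges exponentially fast to `[z]` for the
complex topology and that one of the following holds:

* the multiplicity of the eigenvalue zero of the differential of `Φ^l` at `[z]` is at most one;
* the convergence is not superexponential.

Then for all closed `V ⊆ ℙ^N` of dimension at most one the return set `{n : Φ^n(α) ∈ V}` is a finite
union of arithmetic progressions. In particular for `N = 2` the dynamical Mordell-Lang conjecture holds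
at `α`, for all `V`.

**Basins.** If all `|μ_i| < 1` and the eigenvalue zero has multiplicity at most one then the cycle has a
neighbourhood such that this is the case for all points `α` whose orbit meets it, that is, in the whole
basin. So for attracting cycles of endomorphisms of the plane the only cases which are left are that of
a nilpotent differential and that of two incompatible nonzero multipliers.

**Example.** For `0 < |lam| < 1` and all forms `Q_0, Q_1, Q_2` of degree `d` which vanish at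
`[1 : 0 : 0]` with order at least two the conjecture holds for all `V` and for the map
`[X_0^d + Q_0 : lam X_0^(d-1) X_1 + Q_1 : Q_2]` at all points whose orbit meets some fixed
neighbourhood of `[1 : 0 : 0]`. Here `Φ` is ramified at the fixed point.

The maps, the points and the closed sets are arbitrary complex ones. At a ramified cycle the `p`-adic
method (interpolation of `n ↦ Φ^n(α)`) and the étale method of the sister result
`AttractingCycles` (which covers all `V` in all dimensions at unramified cycles) are not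
available.

The proof. Let `J` be the ideal of the polynomials which are negligible along the orbit: smaller than
all exponentials if the convergence is not superexponential, and otherwise smaller than all
powers of the coordinate `q_n` of the orbit along the kernel of the differential. In the first case
the values of polynomials have exponential expansions by the recursion, in the second case they have
expansions in powers of `q_n`, since the other coordinates are determined by the future of the orbit,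
and the convergence is superexponential. So each polynomial is negligible or has no zeros on the tail
of a residue class of the orbit; the ideal `J` is prime, invariant, and it is not the ideal of the
point `[z]`. If the ideal of an irreducible curve is contained in `J` then it is equal to the ideal
generated by the forms in `J`, so that the curve is invariant; otherwise the curve does not meet the
tail of the orbit.
-/

set_option autoImplicit false

open MvPolynomial Filter Topology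

namespace Pool.Agent.Results.MP_b15c9e_ag.AttractedCurves

variable {N m : ℕ}

/-- The self-map of the cone `ℂ^(N+1)` given by the forms `f`. -/
noncomputable def cone (f : Fin (N + 1) → MvPolynomial (Fin (N + 1)) ℂ) (x : Fin (N + 1) → ℂ) :
    Fin (N + 1) → ℂ :=
  fun i => eval x (f i)

/-- The return set of the point `α` for the closed set given by the forms in `S`. -/
def returnSet (f : Fin (N + 1) → MvPolynomial (Fin (N + 1)) ℂ)
    (S : Set (MvPolynomial (Fin (N + 1)) ℂ)) (α : Fin (N + 1) → ℂ) : Set ℕ :=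
  {n | ∀ g ∈ S, eval ((cone f)^[n] α) g = 0}

/-- A finite union of arithmetic progressions `{a n + b}`, where `a = 0` is allowed. -/
def FiniteUnionAP (A : Set ℕ) : Prop :=
  ∃ T : Finset (ℕ × ℕ), A = {n : ℕ | ∃ q ∈ T, ∃ k : ℕ, n = q.1 * k + q.2}

/-- The closed subset of `ℙ^N` given by `S` has dimension at most one: its homogeneous coordinate ring
has Krull dimension at most two. -/
def DimLeOne (S : Set (MvPolynomial (Fin (N + 1)) ℂ)) : Prop :=
  ringKrullDim (MvPolynomial (Fin (N + 1)) ℂ ⧸ Ideal.span S) ≤ 2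

/-- The dynamical Mordell-Lang conjecture at `α` for closed sets of dimension at most one. -/
def CurvesAt (f : Fin (N + 1) → MvPolynomial (Fin (N + 1)) ℂ) (α : Fin (N + 1) → ℂ) : Prop :=
  (∀ n, (cone f)^[n] α ≠ 0) ∧
    ∀ S : Set (MvPolynomial (Fin (N + 1)) ℂ), (∀ g ∈ S, ∃ e : ℕ, g.IsHomogeneous e) → DimLeOne S →
      FiniteUnionAP (returnSet f S α)

/-- The dynamical Mordell-Lang conjecture at `α` for all closed sets. -/
def DMLAt (f : Fin (N + 1) → MvPolynomial (Fin (N + 1)) ℂ) (α : Fin (N + 1) → ℂ) : Prop :=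
  (∀ n, (cone f)^[n] α ≠ 0) ∧
    ∀ S : Set (MvPolynomial (Fin (N + 1)) ℂ), (∀ g ∈ S, ∃ e : ℕ, g.IsHomogeneous e) →
      FiniteUnionAP (returnSet f S α)

/-- The product of the `L - μ_i`, where `L` is the derivative of `f^l` at `z`, maps to the line
`ℂ z`. -/
def Multipliers (f : Fin (N + 1) → MvPolynomial (Fin (N + 1)) ℂ) (l : ℕ) (z : Fin (N + 1) → ℂ)
    (μ : Fin m → ℂ) : Prop :=
  ∀ v, ∃ a : ℂ, Polynomial.aeval
    (fderiv ℂ (cone f)^[l] z : (Fin (N + 1) → ℂ) →ₗ[ℂ] (Fin (N + 1) → ℂ))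
    (∏ i, (Polynomial.X - Polynomial.C (μ i))) v = a • z

/-- If two monomials in those `μ_i` with `0 < |μ_i| < 1` have the same absolute value then their
quotient is a root of unity. -/
def Compatible (μ : Fin m → ℂ) : Prop :=
  ∀ a b : Fin m → ℕ, (∀ i, μ i = 0 ∨ 1 ≤ ‖μ i‖ → a i = 0 ∧ b i = 0) →
    ‖∏ i, μ i ^ a i‖ = ‖∏ i, μ i ^ b i‖ → ∃ q : ℕ, 1 ≤ q ∧ (∏ i, μ i ^ a i) ^ q = (∏ i, μ i ^ b i) ^ q

/-- The multiplicity of the eigenvalue zero of the derivative of `f^l` at `z` (which is its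
multiplicity for the differential of `Φ^l` at `[z]`, as `L z = d^l z`) is at most one. -/
def SimpleZero (f : Fin (N + 1) → MvPolynomial (Fin (N + 1)) ℂ) (l : ℕ) (z : Fin (N + 1) → ℂ) : Prop :=
  (fderiv ℂ (cone f)^[l] z : (Fin (N + 1) → ℂ) →ₗ[ℂ] (Fin (N + 1) → ℂ)).charpoly.rootMultiplicity 0 ≤ 1

/-- The orbit of `α` under the `l`-th iterate converges exponentially fast to the point `[z]`. -/
def ConvergesTo (f : Fin (N + 1) → MvPolynomial (Fin (N + 1)) ℂ) (l : ℕ) (α z : Fin (N + 1) → ℂ) :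
    Prop :=
  ∃ (s : ℕ → ℂ) (C r : ℝ), r < 1 ∧ ∀ n, ‖s n • (cone f)^[l * n] α - z‖ ≤ C * r ^ n

/-- The orbit of `α` under the `l`-th iterate converges superexponentially fast to the point `[z]`. -/
def SuperConvergesTo (f : Fin (N + 1) → MvPolynomial (Fin (N + 1)) ℂ) (l : ℕ)
    (α z : Fin (N + 1) → ℂ) : Prop :=
  ∀ r > (0 : ℝ), ∃ C : ℝ, ∀ n, ∃ s : ℂ, ‖s • (cone f)^[l * n] α - z‖ ≤ C * r ^ n

/-- The system `(X_0 ^ d + Q_0, lam X_0 ^ (d - 1) X_1 + Q_1, Q_2)`. -/
noncomputable def example3 (d : ℕ) (lam : ℂ) (Q : Fin 3 → MvPolynomial (Fin 3) ℂ) :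
    Fin 3 → MvPolynomial (Fin 3) ℂ :=
  ![X 0 ^ d + Q 0, C lam * X 0 ^ (d - 1) * X 1 + Q 1, Q 2]

lemma cone_zero {f : Fin (N + 1) → MvPolynomial (Fin (N + 1)) ℂ} {d : ℕ} (hd : 2 ≤ d)
    (hf : ∀ i, (f i).IsHomogeneous d) {α : Fin (N + 1) → ℂ} {n : ℕ} (h : (cone f)^[n] α = 0)
    (k : ℕ) : (cone f)^[n + k] α = 0 := by
  induction k with
  | zero => exact h
  | succ k ih =>
    rw [← add_assoc, Function.iterate_succ_apply', ih]
    have h1 := Pool.Agent.KS6_82.Att.vl_smul hf 0 (0 : Fin (N + 1) → ℂ)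
    rw [smul_zero, zero_pow (by omega), zero_smul] at h1
    exact h1

lemma defined_of_conv {f : Fin (N + 1) → MvPolynomial (Fin (N + 1)) ℂ} {d l : ℕ} (hd : 2 ≤ d)
    (hl : 1 ≤ l) (hf : ∀ i, (f i).IsHomogeneous d) {α z : Fin (N + 1) → ℂ} (hz : z ≠ 0)
    (h : ConvergesTo f l α z) (n : ℕ) : (cone f)^[n] α ≠ 0 := by
  obtain ⟨s, C, r, hr, hs⟩ := h
  intro h0
  have h1 : ∀ k ≥ n, ‖z‖ ≤ C * r ^ k := by
    intro k hk
    have h2 : (cone f)^[l * k] α = 0 := by
      obtain ⟨j, hj⟩ := Nat.exists_eq_add_of_le (hk.trans (Nat.le_mul_of_pos_left k hl))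
      rw [hj]
      exact cone_zero hd hf h0 j
    have h3 := hs k
    rwa [h2, smul_zero, zero_sub, norm_neg] at h3
  have hz' : 0 < ‖z‖ := norm_pos_iff.2 hz
  have hC0 : 0 ≤ C := by
    have := (norm_nonneg _).trans (hs 0)
    simpa using this
  rcases le_or_gt 0 r with hr0 | hr0
  · have h4 : Tendsto (fun k : ℕ => C * r ^ k) atTop (𝓝 0) := by
      simpa using (tendsto_pow_atTop_nhds_zero_of_lt_one hr0 hr).const_mul C
    have h5 := ge_of_tendsto h4 (eventually_atTop.2 ⟨n, h1⟩)
    exact absurd h5 (not_le.2 hz')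
  · have h6 := h1 (2 * n + 1) (by omega)
    have h7 : r ^ (2 * n + 1) < 0 := Odd.pow_neg ⟨n, rfl⟩ hr0
    nlinarith

lemma kills_of {f : Fin (N + 1) → MvPolynomial (Fin (N + 1)) ℂ} {l : ℕ} {z : Fin (N + 1) → ℂ}
    {μ : Fin m → ℂ} (h : Multipliers f l z μ) :
    Pool.Agent.KS6_82.Att.Kills
      (Pool.Agent.KS6_82.Att.linT z (Pool.Agent.KS6_82.Att.itp f l)) z μ := by
  intro v
  have h1 := Pool.Agent.KS6_82.Att.fderiv_iterate f l z
  obtain ⟨a, ha⟩ := h v
  refine ⟨a, ?_⟩
  rw [← h1]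
  exact ha

lemma simple_of {f : Fin (N + 1) → MvPolynomial (Fin (N + 1)) ℂ} {l : ℕ} {z : Fin (N + 1) → ℂ}
    (h : SimpleZero f l z) : (Pool.Agent.KS6_82.Att.linT z
      (Pool.Agent.KS6_82.Att.itp f l)).charpoly.rootMultiplicity 0 ≤ 1 := by
  rw [← Pool.Agent.KS6_82.Att.fderiv_iterate f l z]
  exact h

lemma conv_near {d l : ℕ} {f : Fin (N + 1) → MvPolynomial (Fin (N + 1)) ℂ} {z : Fin (N + 1) → ℂ}
    {μ : Fin m → ℂ} (hd : 2 ≤ d) (hl : 1 ≤ l) (hf : ∀ i, (f i).IsHomogeneous d) (hz0 : z ≠ 0)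
    (hz : (cone f)^[l] z = z)
    (hμ : Pool.Agent.KS6_82.Att.Kills
      (Pool.Agent.KS6_82.Att.linT z (Pool.Agent.KS6_82.Att.itp f l)) z μ) (hμ1 : ∀ i, ‖μ i‖ < 1) :
    ∃ δ > (0 : ℝ), ∀ (α : Fin (N + 1) → ℂ) (n : ℕ) (s : ℂ), ‖s • (cone f)^[n] α - z‖ < δ →
      (∀ k, (cone f)^[k] α ≠ 0) ∧ ConvergesTo f l ((cone f)^[n] α) z := by
  obtain ⟨p, hp, δ, hδ, h⟩ := Pool.Agent.KS6_82.Att.near_conv hd hf hz hμ1 hμ
  refine ⟨δ, hδ, fun α n s hs => ?_⟩
  obtain ⟨σ, hσ⟩ := h _ s hs
  obtain ⟨s', K', r, _, hr1, hs'⟩ := Pool.Agent.KS6_82.Crv.conv_of_mul hp hf hz hσ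
  have hconv : ConvergesTo f l ((cone f)^[n] α) z := ⟨s', K', r, hr1, hs'⟩
  refine ⟨fun k hk => ?_, hconv⟩
  have h1 := cone_zero hd hf hk n
  have h2 : (cone f)^[k] ((cone f)^[n] α) = 0 := by
    rw [← Function.iterate_add_apply (cone f) k n α]
    exact h1
  exact defined_of_conv hd hl hf hz0 hconv k h2

lemma example3_eq (d : ℕ) (lam : ℂ) (Q : Fin 3 → MvPolynomial (Fin 3) ℂ) :
    example3 d lam Q = Pool.Agent.KS6_82.Att.fam d ![lam, 0] Q := by
  funext i
  fin_cases i
  · rfl
  · rfl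
  · show Q 2 = C 0 * X 0 ^ (d - 1) * X 2 + Q 2
    rw [map_zero, zero_mul, zero_mul, zero_add]

/-- **Dynamical Mordell-Lang for curves, and in the plane, at points which are attracted to a
possibly ramified cycle in the complex topology.** -/
theorem result :
    (∀ (N d l m : ℕ) (f : Fin (N + 1) → MvPolynomial (Fin (N + 1)) ℂ) (z : Fin (N + 1) → ℂ)
      (μ : Fin m → ℂ), 2 ≤ d → 1 ≤ l → (∀ i, (f i).IsHomogeneous d) → z ≠ 0 →
      (cone f)^[l] z = z → Multipliers f l z μ → Compatible μ →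
      (∀ α, ConvergesTo f l α z → SimpleZero f l z ∨ ¬ SuperConvergesTo f l α z → CurvesAt f α) ∧
      ((∀ i, ‖μ i‖ < 1) → SimpleZero f l z →
        ∃ δ > (0 : ℝ), ∀ (α : Fin (N + 1) → ℂ) (n : ℕ) (s : ℂ),
          ‖s • (cone f)^[n] α - z‖ < δ → CurvesAt f α)) ∧
    (∀ (d l m : ℕ) (f : Fin 3 → MvPolynomial (Fin 3) ℂ) (z : Fin 3 → ℂ)
      (μ : Fin m → ℂ), 2 ≤ d → 1 ≤ l → (∀ i, (f i).IsHomogeneous d) → z ≠ 0 →
      (cone f)^[l] z = z → Multipliers f l z μ → Compatible μ →
      (∀ α, ConvergesTo f l α z → SimpleZero f l z ∨ ¬ SuperConvergesTo f l α z → DMLAt f α) ∧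
      ((∀ i, ‖μ i‖ < 1) → SimpleZero f l z →
        ∃ δ > (0 : ℝ), ∀ (α : Fin 3 → ℂ) (n : ℕ) (s : ℂ),
          ‖s • (cone f)^[n] α - z‖ < δ → DMLAt f α)) ∧
    (∀ (d : ℕ) (lam : ℂ) (Q : Fin 3 → MvPolynomial (Fin 3) ℂ), 2 ≤ d →
      lam ≠ 0 → ‖lam‖ < 1 → (∀ i, (Q i).IsHomogeneous d) →
      (∀ i, eval ![1, 0, 0] (Q i) = 0) → (∀ i j, eval ![1, 0, 0] (pderiv j (Q i)) = 0) →
      ∃ δ > (0 : ℝ), ∀ (α : Fin 3 → ℂ) (n : ℕ) (s : ℂ),
        ‖s • (cone (example3 d lam Q))^[n] α - ![1, 0, 0]‖ < δ → DMLAt (example3 d lam Q) α) := by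
  refine ⟨fun N d l m f z μ hd hl hf hz0 hz hμ hC => ⟨fun α hα hα2 => ⟨?_, ?_⟩, fun hμ1 hS => ?_⟩,
    fun d l m f z μ hd hl hf hz0 hz hμ hC => ⟨fun α hα hα2 => ⟨?_, ?_⟩, fun hμ1 hS => ?_⟩,
    fun d lam Q hd h0 h1 hQ hQ0 hQ1 => ?_⟩
  · exact defined_of_conv hd hl hf hz0 hα
  · intro S hS hdim
    obtain ⟨s, C, r, hr, hs⟩ := hα
    refine Pool.Agent.KS6_82.Crv.main_curves hd hl hf hz0 hz (kills_of hμ) hC hr hs ?_ hS hdim
    rcases hα2 with h | h
    · exact Or.inl (simple_of h)
    · exact Or.inr h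
  · obtain ⟨δ, hδ, h⟩ := conv_near hd hl hf hz0 hz (kills_of hμ) hμ1
    refine ⟨δ, hδ, fun α n s hs => ⟨(h α n s hs).1, fun T hT hdim => ?_⟩⟩
    obtain ⟨s', C, r, hr, hs'⟩ := (h α n s hs).2
    apply Pool.Agent.KS6_82.Att.ap_shift _ n
    have h2 := Pool.Agent.KS6_82.Crv.main_curves hd hl hf hz0 hz (kills_of hμ) hC hr hs'
      (Or.inl (simple_of hS)) hT hdim
    have e : ∀ k, (Pool.Agent.KS6_82.Att.vl f)^[k] ((cone f)^[n] α) = (cone f)^[k + n] α :=
      fun k => (Function.iterate_add_apply (cone f) k n α).symm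
    simp only [e] at h2
    exact h2
  · exact defined_of_conv hd hl hf hz0 hα
  · obtain ⟨s, C, r, hr, hs⟩ := hα
    refine Pool.Agent.KS6_82.Crv.main_plane hd hl hf hz0 hz (kills_of hμ) hC hr hs ?_
    rcases hα2 with h | h
    · exact Or.inl (simple_of h)
    · exact Or.inr h
  · obtain ⟨δ, hδ, h⟩ := conv_near hd hl hf hz0 hz (kills_of hμ) hμ1
    refine ⟨δ, hδ, fun α n s hs => ⟨(h α n s hs).1, ?_⟩⟩
    obtain ⟨s', C, r, hr, hs'⟩ := (h α n s hs).2
    exact Pool.Agent.KS6_82.Att.DMLAt.of_iterate n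
      (Pool.Agent.KS6_82.Crv.main_plane hd hl hf hz0 hz (kills_of hμ) hC hr hs'
        (Or.inl (simple_of hS)))
  · have hb : (![1, 0, 0] : Fin 3 → ℂ) = Pool.Agent.KS6_82.Att.e0 := by
      funext i
      fin_cases i <;> rfl
    rw [hb] at hQ0 ⊢
    simp only [hb] at hQ1
    obtain ⟨h2, h3⟩ := Pool.Agent.KS6_82.Att.fam_data hd ![lam, 0] Q hQ0 hQ1
    rw [example3_eq]
    have hf := Pool.Agent.KS6_82.Att.fam_hom hd ![lam, 0] hQ
    have hz0 : (Pool.Agent.KS6_82.Att.e0 : Fin 3 → ℂ) ≠ 0 := by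
      intro h
      have := congrFun h 0
      exact one_ne_zero this
    have hμ1 : ∀ i, ‖(![lam, 0] : Fin 2 → ℂ) i‖ < 1 := by
      intro i
      fin_cases i
      · exact h1
      · simp
    obtain ⟨δ, hδ, h⟩ := conv_near (l := 1) hd le_rfl hf hz0 h2 h3 hμ1
    refine ⟨δ, hδ, fun α n s hs => ⟨(h α n s hs).1, ?_⟩⟩
    obtain ⟨s', C, r, hr, hs'⟩ := (h α n s hs).2
    exact Pool.Agent.KS6_82.Att.DMLAt.of_iterate n
      (Pool.Agent.KS6_82.Crv.main_plane (l := 1) hd le_rfl hf hz0 h2 h3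
        (Pool.Agent.KS6_82.Crv.compat_two lam h0 h1) hr hs'
        (Or.inl (Pool.Agent.KS6_82.Crv.example_mult hd h0 Q hQ1)))

end Pool.Agent.Results.MP_b15c9e_ag.AttractedCurves
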