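import Mathlib
import Pool.Agent.KS6_82.Att.Family

/-!
# MP_b15c9e_ag: Dynamical Mordell-Lang in the basins of attracting cycles (complex absolute value)

Let `Φ = [f_0 : … : f_N]` be an endomorphism of `ℙ^N` of degree `d ≥ 2` over the complex numbers, and
let `[z]` be a point of `ℙ^N(ℂ)` which is fixed by `Φ^l`. As `d ≥ 2` the vector `z` can be
scaled such that `f^l(z) = z` in the cone `ℂ^(N+1)`. The differential of `Φ^l` at the point `[z]` is the
endomorphism of `ℂ^(N+1) / ℂ z` which is induced by the derivative `L` of `f^l` at `z`.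
Let `μ_1, …, μ_m` be complex numbers such that `∏ (L - μ_i)` maps `ℂ^(N+1)` to the line `ℂ z`
(`Multipliers`), that is, the differential is annihilated by `∏ (X - μ_i)`. By the theorem of Cayley
and Hamilton the eigenvalues of the differential, with multiplicities, are such numbers.

Suppose that all `μ_i` are different from zero (so `Φ` is étale at the cycle; there is no
condition on the critical points of `Φ` elsewhere) and that they are *compatible*: if two monomials in
those of the `μ_i` which have absolute value less than one have the same absolute value then their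
quotient is a root of unity. This is so for example if these `μ_i` are real, or if their absolute
values are multiplicatively independent, or if there is only one such `μ_i`.

**Theorem.**

1. If the orbit of a point `α` under `Φ^l` converges exponentially fast to `[z]` for the complex
   topology (for example if the cycle is a saddle and `α` is on its stable manifold) then the dynamical
   Mordell-Lang conjecture holds at `α`: for every closed `V ⊆ ℙ^N` over `ℂ` the return set
   `{n : Φ^n(α) ∈ V}` is a finite union of arithmetic progressions.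
2. If the cycle is attracting, `|μ_i| < 1` for all `i`, then it has a neighbourhood such that this is
   the case for all points `α` whose orbit meets the neighbourhood, that is, in the whole basin.
3. Example: for all compatible `lam_1, …, lam_N` with `0 < |lam_i| < 1` and all forms `Q_0, …, Q_N` of
   degree `d` which vanish at `[1 : 0 : … : 0]` with order at least two, part 2 applies to the map
   `[X_0^d + Q_0 : lam_1 X_0^(d-1) X_1 + Q_1 : … : lam_N X_0^(d-1) X_N + Q_N]` and the point
   `[1 : 0 : … : 0]`.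

The maps, the points and the closed sets are arbitrary complex ones. (They can be algebraic, when no
`p`-adic argument is available in general, since the orbit may be ramified modulo all primes.) The
existence of common zeros of the `f_i` is not excluded; so this holds also for rational self-maps.

The proof. After a suitable scaling the orbit converges to `z` in the cone. By the recursion the values
of any polynomial along the orbit have asymptotic expansions of all exponential orders whose terms are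
polynomials in `n` times the `n`-th powers of monomials in the `μ_i` of absolute value less than one; for
a suitable iterate there is only one term of each absolute value. So along a residue class the values
are eventually different from zero, unless they are superexponentially small. The superexponentially
small polynomials form an ideal `J` which is invariant under the comorphism `φ`. Since `φ` induces
automorphisms of the Artinian quotients of the local ring at `z`, the ideal `J` is locally generated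
by `φ(J)` (chain condition and Krull's theorem). So the size `S(n)` of the generators of `J` along the
orbit satisfies `S(n) ≤ K S(n + 1)`, and being superexponentially small it is zero.
-/

set_option autoImplicit false

open MvPolynomial Filter Topology

namespace Pool.Agent.Results.MP_b15c9e_ag.AttractingCycles

variable {N m : ℕ}

/-- The self-map of the cone `ℂ^(N+1)` given by the forms `f`. -/
noncomputable def cone (f : Fin (N + 1) → MvPolynomial (Fin (N + 1)) ℂ) (x : Fin (N + 1) → ℂ) :
    Fin (N + 1) → ℂ :=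
  fun i => eval x (f i)

/-- The return set of the point `α` for the closed set given by the forms in `S`. -/
def returnSet (f : Fin (N + 1) → MvPolynomial (Fin (N + 1)) ℂ)
    (S : Set (MvPolynomial (Fin (N + 1)) ℂ)) (α : Fin (N + 1) → ℂ) : Set ℕ :=
  {n | ∀ g ∈ S, eval ((cone f)^[n] α) g = 0}

/-- A finite union of arithmetic progressions `{a n + b}`, where `a = 0` is allowed. -/
def FiniteUnionAP (A : Set ℕ) : Prop :=
  ∃ T : Finset (ℕ × ℕ), A = {n : ℕ | ∃ q ∈ T, ∃ k : ℕ, n = q.1 * k + q.2}

/-- The dynamical Mordell-Lang conjecture at `α`: the orbit is defined and for all closed sets the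
return set is a finite union of arithmetic progressions. -/
def DMLAt (f : Fin (N + 1) → MvPolynomial (Fin (N + 1)) ℂ) (α : Fin (N + 1) → ℂ) : Prop :=
  (∀ n, (cone f)^[n] α ≠ 0) ∧
    ∀ S : Set (MvPolynomial (Fin (N + 1)) ℂ), (∀ g ∈ S, ∃ e : ℕ, g.IsHomogeneous e) →
      FiniteUnionAP (returnSet f S α)

/-- The product of the `L - μ_i`, where `L` is the derivative of `f^l` at `z`, maps to the line
`ℂ z`. -/
def Multipliers (f : Fin (N + 1) → MvPolynomial (Fin (N + 1)) ℂ) (l : ℕ) (z : Fin (N + 1) → ℂ)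
    (μ : Fin m → ℂ) : Prop :=
  ∀ v, ∃ a : ℂ, Polynomial.aeval
    (fderiv ℂ (cone f)^[l] z : (Fin (N + 1) → ℂ) →ₗ[ℂ] (Fin (N + 1) → ℂ))
    (∏ i, (Polynomial.X - Polynomial.C (μ i))) v = a • z

/-- If two monomials in those `μ_i` whose absolute value is less than one have the same absolute value
then their quotient is a root of unity. -/
def Compatible (μ : Fin m → ℂ) : Prop :=
  ∀ a b : Fin m → ℕ, (∀ i, 1 ≤ ‖μ i‖ → a i = 0 ∧ b i = 0) →
    ‖∏ i, μ i ^ a i‖ = ‖∏ i, μ i ^ b i‖ → ∃ q : ℕ, 1 ≤ q ∧ (∏ i, μ i ^ a i) ^ q = (∏ i, μ i ^ b i) ^ q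

/-- The orbit of `α` under the `l`-th iterate converges exponentially fast to the point `[z]`. -/
def ConvergesTo (f : Fin (N + 1) → MvPolynomial (Fin (N + 1)) ℂ) (l : ℕ) (α z : Fin (N + 1) → ℂ) :
    Prop :=
  ∃ (s : ℕ → ℂ) (C r : ℝ), r < 1 ∧ ∀ n, ‖s n • (cone f)^[l * n] α - z‖ ≤ C * r ^ n

/-- The system `(X_0 ^ d + Q_0, lam_1 X_0 ^ (d - 1) X_1 + Q_1, …, lam_N X_0 ^ (d - 1) X_N + Q_N)`. -/
noncomputable def family (d : ℕ) (lam : Fin N → ℂ)
    (Q : Fin (N + 1) → MvPolynomial (Fin (N + 1)) ℂ) :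
    Fin (N + 1) → MvPolynomial (Fin (N + 1)) ℂ :=
  fun i => (Fin.cases (X 0 ^ d) (fun j => C (lam j) * X 0 ^ (d - 1) * X j.succ) i :
    MvPolynomial (Fin (N + 1)) ℂ) + Q i

/-- The point `(1, 0, …, 0)`. -/
def base : Fin (N + 1) → ℂ := Fin.cons 1 0

lemma cone_zero {f : Fin (N + 1) → MvPolynomial (Fin (N + 1)) ℂ} {d : ℕ} (hd : 2 ≤ d)
    (hf : ∀ i, (f i).IsHomogeneous d) {α : Fin (N + 1) → ℂ} {n : ℕ} (h : (cone f)^[n] α = 0)
    (k : ℕ) : (cone f)^[n + k] α = 0 := by
  induction k with
  | zero => exact h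
  | succ k ih =>
    rw [← add_assoc, Function.iterate_succ_apply', ih]
    have h1 := Pool.Agent.KS6_82.Att.vl_smul hf 0 (0 : Fin (N + 1) → ℂ)
    rw [smul_zero, zero_pow (by omega), zero_smul] at h1
    exact h1

lemma defined_of_conv {f : Fin (N + 1) → MvPolynomial (Fin (N + 1)) ℂ} {d l : ℕ} (hd : 2 ≤ d)
    (hl : 1 ≤ l) (hf : ∀ i, (f i).IsHomogeneous d) {α z : Fin (N + 1) → ℂ} (hz : z ≠ 0)
    (h : ConvergesTo f l α z) (n : ℕ) : (cone f)^[n] α ≠ 0 := by
  obtain ⟨s, C, r, hr, hs⟩ := h
  intro h0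
  have h1 : ∀ k ≥ n, ‖z‖ ≤ C * r ^ k := by
    intro k hk
    have h2 : (cone f)^[l * k] α = 0 := by
      obtain ⟨j, hj⟩ := Nat.exists_eq_add_of_le (hk.trans (Nat.le_mul_of_pos_left k hl))
      rw [hj]
      exact cone_zero hd hf h0 j
    have h3 := hs k
    rwa [h2, smul_zero, zero_sub, norm_neg] at h3
  have hz' : 0 < ‖z‖ := norm_pos_iff.2 hz
  have hC0 : 0 ≤ C := by
    have := (norm_nonneg _).trans (hs 0)
    simpa using this
  rcases le_or_gt 0 r with hr0 | hr0
  · have h4 : Tendsto (fun k : ℕ => C * r ^ k) atTop (𝓝 0) := by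
      simpa using (tendsto_pow_atTop_nhds_zero_of_lt_one hr0 hr).const_mul C
    have h5 := ge_of_tendsto h4 (eventually_atTop.2 ⟨n, h1⟩)
    exact absurd h5 (not_le.2 hz')
  · have h6 := h1 (2 * n + 1) (by omega)
    have h7 : r ^ (2 * n + 1) < 0 := Odd.pow_neg ⟨n, rfl⟩ hr0
    nlinarith

lemma kills_of {f : Fin (N + 1) → MvPolynomial (Fin (N + 1)) ℂ} {l : ℕ} {z : Fin (N + 1) → ℂ}
    {μ : Fin m → ℂ} (h : Multipliers f l z μ) :
    Pool.Agent.KS6_82.Att.Kills
      (Pool.Agent.KS6_82.Att.linT z (Pool.Agent.KS6_82.Att.itp f l)) z μ := by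
  intro v
  have h1 := Pool.Agent.KS6_82.Att.fderiv_iterate f l z
  obtain ⟨a, ha⟩ := h v
  refine ⟨a, ?_⟩
  rw [← h1]
  exact ha

lemma basin {d l : ℕ} {f : Fin (N + 1) → MvPolynomial (Fin (N + 1)) ℂ} {z : Fin (N + 1) → ℂ}
    {μ : Fin m → ℂ} (hd : 2 ≤ d) (hl : 1 ≤ l) (hf : ∀ i, (f i).IsHomogeneous d) (hz0 : z ≠ 0)
    (hz : (cone f)^[l] z = z)
    (hμ : Pool.Agent.KS6_82.Att.Kills
      (Pool.Agent.KS6_82.Att.linT z (Pool.Agent.KS6_82.Att.itp f l)) z μ)
    (hμ0 : ∀ i, μ i ≠ 0) (hC : Compatible μ) (hμ1 : ∀ i, ‖μ i‖ < 1) :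
    ∃ δ > (0 : ℝ), ∀ (α : Fin (N + 1) → ℂ) (n : ℕ) (s : ℂ),
      ‖s • (cone f)^[n] α - z‖ < δ → DMLAt f α := by
  obtain ⟨p, hp, δ, hδ, h⟩ := Pool.Agent.KS6_82.Att.near_conv hd hf hz hμ1 hμ
  refine ⟨δ, hδ, fun α n s hs => ?_⟩
  obtain ⟨σ, hσ⟩ := h _ s hs
  have hconv : ConvergesTo f (l * p) ((cone f)^[n] α) z :=
    ⟨σ, _, 1 / 2, by norm_num, hσ⟩
  refine ⟨fun k hk => ?_, ?_⟩
  · have h1 := cone_zero hd hf hk n
    have h2 : (cone f)^[k] ((cone f)^[n] α) = 0 := by
      rw [← Function.iterate_add_apply (cone f) k n α]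
      exact h1
    exact defined_of_conv hd (Nat.mul_pos hl hp) hf hz0 hconv k h2
  · exact Pool.Agent.KS6_82.Att.DMLAt.of_iterate n
      (Pool.Agent.KS6_82.Att.main_exp_pow hd hl hp hf hz0 hz hμ0 hμ hC (by norm_num) hσ)

/-- **Dynamical Mordell-Lang for points attracted to a cycle in the complex topology.** -/
theorem result :
    (∀ (N d l m : ℕ) (f : Fin (N + 1) → MvPolynomial (Fin (N + 1)) ℂ) (z : Fin (N + 1) → ℂ)
      (μ : Fin m → ℂ), 2 ≤ d → 1 ≤ l → (∀ i, (f i).IsHomogeneous d) → z ≠ 0 →
      (cone f)^[l] z = z → Multipliers f l z μ → (∀ i, μ i ≠ 0) → Compatible μ →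
      (∀ α, ConvergesTo f l α z → DMLAt f α) ∧
      ((∀ i, ‖μ i‖ < 1) → ∃ δ > (0 : ℝ), ∀ (α : Fin (N + 1) → ℂ) (n : ℕ) (s : ℂ),
        ‖s • (cone f)^[n] α - z‖ < δ → DMLAt f α)) ∧
    (∀ (N d : ℕ) (lam : Fin N → ℂ) (Q : Fin (N + 1) → MvPolynomial (Fin (N + 1)) ℂ), 2 ≤ d →
      (∀ i, lam i ≠ 0) → (∀ i, ‖lam i‖ < 1) → Compatible lam → (∀ i, (Q i).IsHomogeneous d) →
      (∀ i, eval base (Q i) = 0) → (∀ i j, eval base (pderiv j (Q i)) = 0) →
      ∃ δ > (0 : ℝ), ∀ (α : Fin (N + 1) → ℂ) (n : ℕ) (s : ℂ),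
        ‖s • (cone (family d lam Q))^[n] α - base‖ < δ → DMLAt (family d lam Q) α) := by
  refine ⟨fun N d l m f z μ hd hl hf hz0 hz hμ hμ0 hC => ⟨fun α hα => ⟨?_, ?_⟩, fun hμ1 => ?_⟩,
    fun N d lam Q hd h0 h1 hC hQ hQ0 hQ1 => ?_⟩
  · exact defined_of_conv hd hl hf hz0 hα
  · obtain ⟨s, C, r, hr, hs⟩ := hα
    exact Pool.Agent.KS6_82.Att.main_exp hd hl hf hz0 hz hμ0 (kills_of hμ) hC hr hs
  · exact basin hd hl hf hz0 hz (kills_of hμ) hμ0 hC hμ1
  · obtain ⟨h2, h3⟩ := Pool.Agent.KS6_82.Att.fam_data hd lam Q hQ0 hQ1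
    refine basin (l := 1) (z := base) hd le_rfl (Pool.Agent.KS6_82.Att.fam_hom hd lam hQ) ?_ ?_ h3
      h0 hC h1
    · intro h
      have := congrFun h 0
      exact one_ne_zero this
    · exact h2

end Pool.Agent.Results.MP_b15c9e_ag.AttractingCycles
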