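import Mathlib
import Pool.Agent.KS6_82.CC.MainE

/-!
# MP_b15c9e_ag: Dynamical Mordell-Lang for curves with slow cycles at infinity

Let `f = (f_0, …, f_N)` be a polynomial self-map of `𝔸^{N+1}` of degree `d ≥ 2` with algebraic
coefficients whose leading forms `F = (F_0, …, F_N)` have no common zero in `ℂ^{N+1}` but `0`; so `f`
extends to an endomorphism of `ℙ^{N+1}` (with a totally invariant hyperplane, on which it is `F`). Let
`V` be a closed subset of `𝔸^{N+1}` over `ℂ` of dimension at most one and let `a` be a point with
algebraic coordinates.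

Let `[z]` be a periodic point of `F` in `ℙ^N`. For `F^L([z]) = [z]` let `R_L` be the local ring at `[z]`
of the fibre of `F^L` over `[z]`, and `𝔪` its maximal ideal. Its length is the local degree of `F^L` at
`[z]`, and its nilpotency index (the least `A` with `𝔪^A = 0`) is at most its length. The point `[z]` is
called *slow* if for some such `L ≥ 1` one of the following holds:

* the nilpotency index of `R_L` is less than `d^L`;
* the product of the local degrees of `F` at the points `[z], F([z]), …, F^{L-1}([z])` is less
  than `d^L`.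

(By Nakayama's lemma `𝔪^A = 0` if and only if `𝔪_z^A ⊆ I + 𝔪_z^{A+1}` in the polynomial ring, where `I` is
the ideal of the fibre; we use this form. The first condition is implied by the second.) The nilpotency
index of `R_L` is always at most `N (d^L - 1) + 1`, so its growth rate is at most `d`, and the cycles
which are not slow are those with the maximal growth rate; these are superattracting in some direction
in the strongest sense, like the cycles of the points `[1 : 0 : … : 0]` for a power map.

**Theorem, first part.** If all periodic points at infinity of `V` are slow then `{n : f^n(a) ∈ V}` is a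
finite union of arithmetic progressions.

**Second part.** In particular, if the local degree of `F` at each point of `ℙ^N` is less than `d` then
the dynamical Mordell-Lang property holds for `f`, for all algebraic points and all `V` of dimension
at most one. This is a condition on the leading forms alone, and there is no condition on their
dynamics; it is a Zariski open condition, and it is satisfied by generic forms if `d` is large with
respect to `N` (the local degrees of generic maps are bounded in terms of `N`).

It was known (`CurvesOffCriticalCycles`) that the property holds if the cycles of the periodic points at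
infinity of `V` contain no critical points of `F`; these cycles are slow, with index one.

The proof. Let the return set be infinite. Take the returns along an ultrafilter; the `j`-th
predecessors `f^{n-j}(a)` lie on irreducible curves `V_j`, and at a place `v` at which the orbit is
unbounded they converge to the points of a periodic cycle of `F` at infinity (this is known), of which
`[z]` is assumed to be slow. Let `p` be the ideal of the polynomials vanishing on almost all `V_{aL}`
(`a → ∞` along another ultrafilter) and let `H(D)` be its Hilbert function. Let `I_s` be the ideal of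
the functions in the local coordinates at `[z]` which have at the predecessors the size `‖x‖^{-s}` or
less, along pairs of indices.

(1) The predecessors converge to `[z]` at least as fast as `‖x‖^{-δ}`, with a uniform `δ > 0`, since a
slow cycle loses in each turn less than what is won by the escape to infinity. So `I_{s_0}` has finite
colength, uniformly in the level.

(2) The pull-back of `I_{s_0}` by `q` turns is contained in `I_{D^q s_0}`, where `D = d^L`. Its
colength is at most `c D^q` times the length of the intersection of the fibre of `F^{qL}` with the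
hyperplane section at infinity of the zero set of `p`, which is at most the length of this
hyperplane section modulo the power `A^q` of the maximal ideal, and this is at most an
increment `H(M) - H(M-1)`, with `M` between `A^q` and infinity, hence at most `H(2 A^q) / A^q`.

(3) By Schmidt's subspace theorem, applied to the polynomials of degree `D^q` modulo `p` along pairs of
indices, `H(D^q)` is at most `C` times this colength. So `A^q H(D^q) ≤ C D^q H(2 A^q)`, and since
`A < D` this implies by iteration that `H(D) = O(D^{1+ε})`: the zero set of `p` is a curve, so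
infinitely many of the curves `V_j` are equal to it, and they are periodic.
-/

set_option autoImplicit false

open MvPolynomial

namespace Pool.Agent.Results.MP_b15c9e_ag.SlowCyclesAtInfinity

variable {N : ℕ}

/-- The polynomial self-map of `ℂ^{N+1}`. -/
noncomputable def selfMap (f : Fin (N + 1) → MvPolynomial (Fin (N + 1)) ℂ) (x : Fin (N + 1) → ℂ) :
    Fin (N + 1) → ℂ :=
  fun i => eval x (f i)

/-- The forms of degree `d` of a system of polynomials. -/
noncomputable def top (d : ℕ) (f : Fin (N + 1) → MvPolynomial (Fin (N + 1)) ℂ) :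
    Fin (N + 1) → MvPolynomial (Fin (N + 1)) ℂ :=
  fun i => homogeneousComponent d (f i)

/-- The common zeros of a set of complex polynomials. -/
def zeros (V : Set (MvPolynomial (Fin (N + 1)) ℂ)) : Set (Fin (N + 1) → ℂ) :=
  {z | ∀ g ∈ V, eval z g = 0}

/-- The zero set has dimension at most one: any two coordinates satisfy a polynomial equation. -/
def DimLeOne (V : Set (MvPolynomial (Fin (N + 1)) ℂ)) : Prop :=
  ∀ i j, ∃ P : MvPolynomial (Fin 2) ℂ, P ≠ 0 ∧ ∀ z ∈ zeros V, eval ![z i, z j] P = 0

/-- All coefficients are algebraic numbers. -/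
def AlgCoeff (f : Fin (N + 1) → MvPolynomial (Fin (N + 1)) ℂ) : Prop :=
  ∀ i κ, IsAlgebraic ℚ (coeff κ (f i))

/-- Polynomials of degree at most `d` whose forms of degree `d` have no common zero but `0`. -/
def Regular (d : ℕ) (f : Fin (N + 1) → MvPolynomial (Fin (N + 1)) ℂ) : Prop :=
  (∀ i, (f i).totalDegree ≤ d) ∧ ∀ z : Fin (N + 1) → ℂ, (∀ i, eval z (top d f i) = 0) → z = 0

/-- The vectors whose direction is a point at infinity of the zero set: the leading form of each
polynomial vanishing on the zero set vanishes at `y`. -/
def AtInfinity (V : Set (MvPolynomial (Fin (N + 1)) ℂ)) (y : Fin (N + 1) → ℂ) : Prop :=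
  ∀ g : MvPolynomial (Fin (N + 1)) ℂ, (∀ z ∈ zeros V, eval z g = 0) →
    eval y (homogeneousComponent g.totalDegree g) = 0

/-- The forms of the `L`-th iterate of the map given by the forms `F`. -/
noncomputable def iterate (F : Fin (N + 1) → MvPolynomial (Fin (N + 1)) ℂ) (L : ℕ)
    (i : Fin (N + 1)) : MvPolynomial (Fin (N + 1)) ℂ :=
  (bind₁ F)^[L] (X i)

/-- The maximal ideal of the point `z` of affine space. -/
noncomputable def pointIdeal (z : Fin (N + 1) → ℂ) : Ideal (MvPolynomial (Fin (N + 1)) ℂ) :=
  Ideal.span (Set.range fun j => X j - C (z j))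

/-- The ideal of the fibre of the map `[x] ↦ [G(x)]` through the point `[z]`, in the affine chart
`x_i = z_i` (where `z_i ≠ 0`): the coordinate hyperplane `x_i = z_i` and the two by two minors of
the matrix with the rows `G(z)` and `G`. -/
noncomputable def fibreIdeal (G : Fin (N + 1) → MvPolynomial (Fin (N + 1)) ℂ)
    (z : Fin (N + 1) → ℂ) (i : Fin (N + 1)) : Ideal (MvPolynomial (Fin (N + 1)) ℂ) :=
  Ideal.span {X i - C (z i)} ⊔
    Ideal.span (Set.range fun p : Fin (N + 1) × Fin (N + 1) =>
      C (eval z (G p.1)) * G p.2 - C (eval z (G p.2)) * G p.1)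

/-- The `A`-th power of the maximal ideal of the local ring at `[z]` of the fibre of `[G]` through
`[z]` is zero (by Nakayama's lemma). -/
def NilpotentOfOrder (A : ℕ) (G : Fin (N + 1) → MvPolynomial (Fin (N + 1)) ℂ)
    (z : Fin (N + 1) → ℂ) : Prop :=
  ∃ i, z i ≠ 0 ∧ pointIdeal z ^ A ≤ fibreIdeal G z i ⊔ pointIdeal z ^ (A + 1)

/-- The local degree of `[G]` at `[z]` is at most `e`: the quotients of the local ring at `[z]` of the
fibre of `[G]` through `[z]` by the powers of its maximal ideal have dimension at most `e`. -/
def LocalDegreeLe (e : ℕ) (G : Fin (N + 1) → MvPolynomial (Fin (N + 1)) ℂ)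
    (z : Fin (N + 1) → ℂ) : Prop :=
  ∀ i, z i ≠ 0 → ∀ K : ℕ, Module.finrank ℂ
    (MvPolynomial (Fin (N + 1)) ℂ ⧸ (fibreIdeal G z i ⊔ pointIdeal z ^ K)) ≤ e

/-- `[z]` is fixed by the `L`-th iterate of the map `[F]`. -/
def FixedBy (L : ℕ) (F : Fin (N + 1) → MvPolynomial (Fin (N + 1)) ℂ) (z : Fin (N + 1) → ℂ) : Prop :=
  ∃ c : ℂ, c ≠ 0 ∧ (selfMap F)^[L] z = c • z

/-- The periodic point `[z]` of the map `[F]` of degree `d` is slow. -/
def Slow (d : ℕ) (F : Fin (N + 1) → MvPolynomial (Fin (N + 1)) ℂ) (z : Fin (N + 1) → ℂ) : Prop :=
  ∃ L ≥ 1, FixedBy L F z ∧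
    ((∃ A < d ^ L, NilpotentOfOrder A (iterate F L) z) ∨
      ∃ e : ℕ → ℕ, (∀ i < L, LocalDegreeLe (e i) F ((selfMap F)^[i] z)) ∧
        ∏ i ∈ Finset.range L, e i < d ^ L)

/-- All periodic points at infinity of `V` are slow. -/
def SlowAtInfinity (d : ℕ) (f : Fin (N + 1) → MvPolynomial (Fin (N + 1)) ℂ)
    (V : Set (MvPolynomial (Fin (N + 1)) ℂ)) : Prop :=
  ∀ z : Fin (N + 1) → ℂ, z ≠ 0 → AtInfinity V z → (∃ l ≥ 1, FixedBy l (top d f) z) →
    Slow d (top d f) z

/-- The return set of the point `a`. -/
def returnSet (f : Fin (N + 1) → MvPolynomial (Fin (N + 1)) ℂ)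
    (V : Set (MvPolynomial (Fin (N + 1)) ℂ)) (a : Fin (N + 1) → ℂ) : Set ℕ :=
  {n | (selfMap f)^[n] a ∈ zeros V}

/-- A finite union of arithmetic progressions `{a + k n}`, where `k = 0` is allowed. -/
def FiniteUnionAP (A : Set ℕ) : Prop :=
  ∃ T : Finset (ℕ × ℕ), A = {n : ℕ | ∃ q ∈ T, ∃ m : ℕ, n = q.1 * m + q.2}

/-- The first part. -/
theorem main (N d : ℕ) (f : Fin (N + 1) → MvPolynomial (Fin (N + 1)) ℂ) (hd : 2 ≤ d)
    (halg : AlgCoeff f) (hf : Regular d f) (V : Set (MvPolynomial (Fin (N + 1)) ℂ))
    (hV : DimLeOne V) (hper : SlowAtInfinity d f V) (a : Fin (N + 1) → ℂ)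
    (ha : ∀ i, IsAlgebraic ℚ (a i)) : FiniteUnionAP (returnSet f V a) := by
  refine Pool.Agent.KS6_82.CC.dml_algE d hd f hf.1 halg hf.2 V hV ?_
    (fun n => (selfMap f)^[n] a) (fun n i => by
      simp only [Function.iterate_succ_apply', selfMap]) ha
  intro z hz hinf hp
  obtain ⟨L, hL, hfix, hor⟩ := hper z hz hinf hp
  refine ⟨L, hL, hfix, ?_⟩
  rcases hor with ⟨A, hA, i, hi, h⟩ | ⟨e, he, hprod⟩
  · exact Or.inl ⟨A, hA, i, hi, h⟩
  · exact Or.inr ⟨e, fun i hi K r hr => he i hi r hr K, hprod⟩

/-- **Dynamical Mordell-Lang for curves with slow cycles at infinity.** -/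
theorem result :
    (∀ (N d : ℕ) (f : Fin (N + 1) → MvPolynomial (Fin (N + 1)) ℂ), 2 ≤ d → AlgCoeff f →
      Regular d f → ∀ V : Set (MvPolynomial (Fin (N + 1)) ℂ), DimLeOne V →
        SlowAtInfinity d f V →
        ∀ a : Fin (N + 1) → ℂ, (∀ i, IsAlgebraic ℚ (a i)) → FiniteUnionAP (returnSet f V a)) ∧
    (∀ (N d : ℕ) (f : Fin (N + 1) → MvPolynomial (Fin (N + 1)) ℂ), 2 ≤ d → AlgCoeff f →
      Regular d f → (∀ z : Fin (N + 1) → ℂ, z ≠ 0 → LocalDegreeLe (d - 1) (top d f) z) →
        ∀ V : Set (MvPolynomial (Fin (N + 1)) ℂ), DimLeOne V →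
        ∀ a : Fin (N + 1) → ℂ, (∀ i, IsAlgebraic ℚ (a i)) → FiniteUnionAP (returnSet f V a)) := by
  refine ⟨main, fun N d f hd halg hf hloc V hV a ha => main N d f hd halg hf V hV ?_ a ha⟩
  rintro z hz - ⟨l, hl, hfix⟩
  have hne : ∀ i, (selfMap (top d f))^[i] z ≠ 0 := by
    intro i
    induction i with
    | zero => exact hz
    | succ i ih =>
      intro h0
      apply ih
      rw [Function.iterate_succ_apply'] at h0
      exact hf.2 _ fun j => congrFun h0 j
  refine ⟨l, hl, hfix, Or.inr ⟨fun _ => d - 1, fun i _ => hloc _ (hne i), ?_⟩⟩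
  rw [Finset.prod_const, Finset.card_range]
  exact Nat.pow_lt_pow_left (by omega) (by omega)

end Pool.Agent.Results.MP_b15c9e_ag.SlowCyclesAtInfinity
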