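import Mathlib
import Pool.Agent.SP82.I

/-!
# MP_b15c9e_ag: Dynamical Mordell-Lang for orbits which converge at any rate to a cycle with at most one
neutral multiplier

Let `Φ = [f_0 : … : f_N]` be an endomorphism of `ℙ^N` of degree `d ≥ 2` over the complex numbers, and
let `[z]` be a point of `ℙ^N(ℂ)` which is fixed by `Φ^l`; `z` is scaled such that `f^l(z) = z` in the
cone `ℂ^(N+1)`. The differential of `Φ^l` at `[z]` is the endomorphism of `ℂ^(N+1) / ℂ z` induced by the
derivative `L` of `f^l` at `z`. Suppose that at most one of its eigenvalues, counted with multiplicity,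
is of absolute value one (`OneNeutral`). The others are arbitrary: attracting (or zero) or repelling.
So all hyperbolic cycles are included, and for instance the cycles which are parabolic in one direction
and hyperbolic in the others.

**Theorem 1.** If the orbit of `α` under `Φ^l` converges to `[z]` in the complex topology **at any
rate** then it converges exponentially fast, or for all closed `V ⊆ ℙ^N` of dimension at most one the
return set `{n : Φ^n(α) ∈ V}` is a finite union of arithmetic progressions. (No further condition on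
the multipliers; in the second case the convergence is slow, like `1/n`, as in the petals of a
parabolic cycle.) If the multipliers of absolute value less than one are compatible then the result
holds in both cases (if the multiplicity of the eigenvalue zero is at most one, or if the convergence
is not superexponential).

**Theorem 2 (the plane).** Let `Φ` be an endomorphism of `ℙ^2` of degree at least two and let `[z]` be
a periodic point with multipliers `lam` and `μ` (eigenvectors `e` and `e'`), where `|μ| ≠ 1` and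
`lam`, `μ` are not both zero. If `0 < |lam| < 1` and `0 < |μ| < 1` then they are supposed to be
compatible. Then the dynamical Mordell-Lang conjecture holds at all points `α` whose orbit converges to
the cycle of `[z]` in the complex topology, for all closed sets `V`.

**Example.** This applies to the fixed point `[1 : 0 : 0]` of the maps
`[X_0^d + Q_0 : lam X_0^(d-1) X_1 + Q_1 : μ X_0^(d-1) X_2 + Q_2]`, where the `Q_i` are forms of degree
`d` which vanish at `[1 : 0 : 0]` with order at least two.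

The sister results `AttractingCycles` and `AttractedCurves` are about exponentially fast convergence,
where the values of polynomials along the orbit have expansions in exponentials `μ^n`. These are not
available for slow convergence.

The proof. The cone `ℂ^(N+1)` splits into the eigenline of `lam`, the stable and the unstable subspace
of `L` (which contains `z`). An orbit can be scaled such that it converges to `z` in the cone. It cannot
enter the unstable cone; if it enters the cone `|v - z| ≤ B |ξ(v - z)|`, where `ξ` is the eigenform for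
`lam`, then it stays in it, and otherwise the convergence is exponential. In the first case
`Q_n = ξ(Z_n - z)` satisfies `|Q_(n+1) / Q_n| → 1`. All coordinates of `Z_n`, and hence all
polynomials, have asymptotic expansions to all orders in powers of `Q_n` (the orbit is asymptotic to a
formal invariant curve), by the solution of the recursions `s_(n+1) = ν s_n + b_n`, `|ν| ≠ 1`, in the
class of the sequences with such expansions, forward in time if `|ν| < 1` and backward if `|ν| > 1`.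
The polynomials which are `O(Q_n^k)` for all `k` are an invariant prime ideal `J`, and the others have
no zeros on the tail of the orbit; if the ideal of an irreducible curve is contained in `J` then it is
generated by the forms in `J` and the curve is invariant, and otherwise it does not meet the tail.
-/

set_option autoImplicit false

open MvPolynomial Filter Topology

namespace Pool.Agent.Results.MP_b15c9e_ag.SlowlyConvergentOrbits

variable {N m : ℕ}

/-- The self-map of the cone `ℂ^(N+1)` given by the forms `f`. -/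
noncomputable def cone (f : Fin (N + 1) → MvPolynomial (Fin (N + 1)) ℂ) (x : Fin (N + 1) → ℂ) :
    Fin (N + 1) → ℂ :=
  fun i => eval x (f i)

/-- The return set of the point `α` for the closed set given by the forms in `S`. -/
def returnSet (f : Fin (N + 1) → MvPolynomial (Fin (N + 1)) ℂ)
    (S : Set (MvPolynomial (Fin (N + 1)) ℂ)) (α : Fin (N + 1) → ℂ) : Set ℕ :=
  {n | ∀ g ∈ S, eval ((cone f)^[n] α) g = 0}

/-- A finite union of arithmetic progressions `{a n + b}`, where `a = 0` is allowed. -/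
def FiniteUnionAP (A : Set ℕ) : Prop :=
  ∃ T : Finset (ℕ × ℕ), A = {n : ℕ | ∃ q ∈ T, ∃ k : ℕ, n = q.1 * k + q.2}

/-- The closed subset of `ℙ^N` given by `S` has dimension at most one: its homogeneous coordinate ring
has Krull dimension at most two. -/
def DimLeOne (S : Set (MvPolynomial (Fin (N + 1)) ℂ)) : Prop :=
  ringKrullDim (MvPolynomial (Fin (N + 1)) ℂ ⧸ Ideal.span S) ≤ 2

/-- The dynamical Mordell-Lang conjecture at `α` for closed sets of dimension at most one. -/
def CurvesAt (f : Fin (N + 1) → MvPolynomial (Fin (N + 1)) ℂ) (α : Fin (N + 1) → ℂ) : Prop :=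
  (∀ n, (cone f)^[n] α ≠ 0) ∧
    ∀ S : Set (MvPolynomial (Fin (N + 1)) ℂ), (∀ g ∈ S, ∃ e : ℕ, g.IsHomogeneous e) → DimLeOne S →
      FiniteUnionAP (returnSet f S α)

/-- The dynamical Mordell-Lang conjecture at `α` for all closed sets. -/
def DMLAt (f : Fin (N + 1) → MvPolynomial (Fin (N + 1)) ℂ) (α : Fin (N + 1) → ℂ) : Prop :=
  (∀ n, (cone f)^[n] α ≠ 0) ∧
    ∀ S : Set (MvPolynomial (Fin (N + 1)) ℂ), (∀ g ∈ S, ∃ e : ℕ, g.IsHomogeneous e) →
      FiniteUnionAP (returnSet f S α)

/-- The derivative of `f^l` at `z`. -/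
noncomputable def deriv (f : Fin (N + 1) → MvPolynomial (Fin (N + 1)) ℂ) (l : ℕ)
    (z : Fin (N + 1) → ℂ) : (Fin (N + 1) → ℂ) →ₗ[ℂ] (Fin (N + 1) → ℂ) :=
  (fderiv ℂ (cone f)^[l] z : (Fin (N + 1) → ℂ) →ₗ[ℂ] (Fin (N + 1) → ℂ))

/-- At most one eigenvalue of the differential of `Φ^l` at `[z]`, counted with multiplicity, is of
absolute value one: the product of the `L - μ_i`, where `L` is the derivative of `f^l` at `z` and the
numbers `μ_i` are not of absolute value one, maps to the line of a vector `e` modulo `ℂ z`, and `e` is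
mapped to `lam e` modulo `ℂ z`, where `|lam| = 1`. (The product may be zero modulo `ℂ z`; then all
eigenvalues of the differential are among the `μ_i`.) -/
def OneNeutral (f : Fin (N + 1) → MvPolynomial (Fin (N + 1)) ℂ) (l : ℕ) (z : Fin (N + 1) → ℂ)
    (μ : Fin m → ℂ) (lam : ℂ) : Prop :=
  (∀ i, ‖μ i‖ ≠ 1) ∧ ‖lam‖ = 1 ∧
    ∃ (ξ : (Fin (N + 1) → ℂ) →ₗ[ℂ] ℂ) (e : Fin (N + 1) → ℂ),
      (∀ v, ∃ c : ℂ, Polynomial.aeval (deriv f l z)
        (∏ i, (Polynomial.X - Polynomial.C (μ i))) v = ξ v • e + c • z) ∧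
      ∃ c : ℂ, deriv f l z e = lam • e + c • z

/-- If two monomials in those `μ_i` with `0 < |μ_i| < 1` have the same absolute value then their
quotient is a root of unity. -/
def Compatible (μ : Fin m → ℂ) : Prop :=
  ∀ a b : Fin m → ℕ, (∀ i, μ i = 0 ∨ 1 ≤ ‖μ i‖ → a i = 0 ∧ b i = 0) →
    ‖∏ i, μ i ^ a i‖ = ‖∏ i, μ i ^ b i‖ → ∃ q : ℕ, 1 ≤ q ∧ (∏ i, μ i ^ a i) ^ q = (∏ i, μ i ^ b i) ^ q

/-- The multiplicity of the eigenvalue zero of the derivative of `f^l` at `z` is at most one. -/
def SimpleZero (f : Fin (N + 1) → MvPolynomial (Fin (N + 1)) ℂ) (l : ℕ) (z : Fin (N + 1) → ℂ) : Prop :=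
  (deriv f l z).charpoly.rootMultiplicity 0 ≤ 1

/-- The orbit of `α` under `Φ^l` converges to `[z]` in `ℙ^N(ℂ)`, for the complex topology. -/
def Converges (f : Fin (N + 1) → MvPolynomial (Fin (N + 1)) ℂ) (l : ℕ) (α z : Fin (N + 1) → ℂ) :
    Prop :=
  ∃ s : ℕ → ℂ, Tendsto (fun n => s n • (cone f)^[l * n] α) atTop (𝓝 z)

/-- The orbit of `α` under the `l`-th iterate converges exponentially fast to the point `[z]`. -/
def ConvergesFast (f : Fin (N + 1) → MvPolynomial (Fin (N + 1)) ℂ) (l : ℕ)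
    (α z : Fin (N + 1) → ℂ) : Prop :=
  ∃ (s : ℕ → ℂ) (C r : ℝ), r < 1 ∧ ∀ n, ‖s n • (cone f)^[l * n] α - z‖ ≤ C * r ^ n

/-- The orbit of `α` under the `l`-th iterate converges superexponentially fast to the point `[z]`. -/
def SuperConvergesTo (f : Fin (N + 1) → MvPolynomial (Fin (N + 1)) ℂ) (l : ℕ)
    (α z : Fin (N + 1) → ℂ) : Prop :=
  ∀ r > (0 : ℝ), ∃ C : ℝ, ∀ n, ∃ s : ℂ, ‖s • (cone f)^[l * n] α - z‖ ≤ C * r ^ n

/-- The system `(X_0 ^ d + Q_0, lam X_0 ^ (d - 1) X_1 + Q_1, μ X_0 ^ (d - 1) X_2 + Q_2)`. -/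
noncomputable def example3 (d : ℕ) (lam μ : ℂ) (Q : Fin 3 → MvPolynomial (Fin 3) ℂ) :
    Fin 3 → MvPolynomial (Fin 3) ℂ :=
  ![X 0 ^ d + Q 0, C lam * X 0 ^ (d - 1) * X 1 + Q 1, C μ * X 0 ^ (d - 1) * X 2 + Q 2]

lemma cone_zero {f : Fin (N + 1) → MvPolynomial (Fin (N + 1)) ℂ} {d : ℕ} (hd : 2 ≤ d)
    (hf : ∀ i, (f i).IsHomogeneous d) {α : Fin (N + 1) → ℂ} {n : ℕ} (h : (cone f)^[n] α = 0)
    (k : ℕ) : (cone f)^[n + k] α = 0 := by
  induction k with
  | zero => exact h
  | succ k ih =>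
    rw [← add_assoc, Function.iterate_succ_apply', ih]
    have h1 := Pool.Agent.KS6_82.Att.vl_smul hf 0 (0 : Fin (N + 1) → ℂ)
    rw [smul_zero, zero_pow (by omega), zero_smul] at h1
    exact h1

lemma defined_of_lim {f : Fin (N + 1) → MvPolynomial (Fin (N + 1)) ℂ} {d l : ℕ} (hd : 2 ≤ d)
    (hl : 1 ≤ l) (hf : ∀ i, (f i).IsHomogeneous d) {α z : Fin (N + 1) → ℂ} (hz : z ≠ 0)
    (h : Converges f l α z) (n : ℕ) : (cone f)^[n] α ≠ 0 := by
  obtain ⟨s, hs⟩ := h
  intro h0
  apply hz
  refine tendsto_nhds_unique hs (tendsto_const_nhds.congr' ?_)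
  filter_upwards [eventually_ge_atTop n] with k hk
  have h2 : (cone f)^[l * k] α = 0 := by
    obtain ⟨j, hj⟩ := Nat.exists_eq_add_of_le (hk.trans (Nat.le_mul_of_pos_left k hl))
    rw [hj]
    exact cone_zero hd hf h0 j
  rw [h2, smul_zero]

lemma deriv_eq (f : Fin (N + 1) → MvPolynomial (Fin (N + 1)) ℂ) (l : ℕ) (z : Fin (N + 1) → ℂ) :
    deriv f l z = Pool.Agent.KS6_82.Att.linT z (Pool.Agent.KS6_82.Att.itp f l) :=
  Pool.Agent.KS6_82.Att.fderiv_iterate f l z

lemma neut_of {f : Fin (N + 1) → MvPolynomial (Fin (N + 1)) ℂ} {l : ℕ} {z : Fin (N + 1) → ℂ}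
    {μ : Fin m → ℂ} {lam : ℂ} (h : OneNeutral f l z μ lam) : ∃ ξ e, Pool.Agent.SP82.Neut
      (Pool.Agent.KS6_82.Att.linT z (Pool.Agent.KS6_82.Att.itp f l)) z μ lam ξ e := by
  obtain ⟨h1, h2, ξ, e, h4, h5⟩ := h
  rw [deriv_eq] at h5
  simp_rw [deriv_eq] at h4
  exact ⟨ξ, e, ⟨h1, h2, h4, h5⟩⟩

/-- Two multipliers are compatible if one of them is zero or not attracting. -/
lemma compat_pair {lam μ : ℂ} (h : lam ≠ 0 → ‖lam‖ < 1 → μ ≠ 0 → ‖μ‖ < 1 → Compatible ![lam, μ]) :
    Compatible ![lam, μ] := by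
  by_cases h1 : lam = 0 ∨ 1 ≤ ‖lam‖
  · intro a b hab hn
    obtain ⟨ha, hb⟩ := hab 0 h1
    simp only [Fin.prod_univ_two, Matrix.cons_val_zero, Matrix.cons_val_one, ha, hb, pow_zero,
      one_mul] at hn ⊢
    have h2 := Pool.Agent.SP82.compat_one μ (fun _ => a 1) (fun _ => b 1) (fun _ hi => hab 1 hi)
      (by simpa using hn)
    simpa using h2
  · by_cases h2 : μ = 0 ∨ 1 ≤ ‖μ‖
    · intro a b hab hn
      obtain ⟨ha, hb⟩ := hab 1 h2
      simp only [Fin.prod_univ_two, Matrix.cons_val_zero, Matrix.cons_val_one, ha, hb, pow_zero,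
        mul_one] at hn ⊢
      have h2 := Pool.Agent.SP82.compat_one lam (fun _ => a 0) (fun _ => b 0) (fun _ hi => hab 0 hi)
        (by simpa using hn)
      simpa using h2
    · push Not at h1 h2
      exact h h1.1 h1.2 h2.1 h2.2

lemma example3_eq (d : ℕ) (lam μ : ℂ) (Q : Fin 3 → MvPolynomial (Fin 3) ℂ) :
    example3 d lam μ Q = Pool.Agent.KS6_82.Att.fam d ![lam, μ] Q := by
  funext i
  fin_cases i <;> rfl

theorem plane' {f : Fin 3 → MvPolynomial (Fin 3) ℂ} {d l : ℕ} {z e e' : Fin 3 → ℂ} {lam μ : ℂ}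
    (hd : 2 ≤ d) (hl : 1 ≤ l) (hf : ∀ i, (f i).IsHomogeneous d) (hz : (cone f)^[l] z = z)
    (hli : LinearIndependent ℂ ![z, e, e']) (he : ∃ c : ℂ, deriv f l z e = lam • e + c • z)
    (he' : ∃ c : ℂ, deriv f l z e' = μ • e' + c • z) (hμ : ‖μ‖ ≠ 1) (h0 : lam ≠ 0 ∨ μ ≠ 0)
    (hC : lam ≠ 0 → ‖lam‖ < 1 → μ ≠ 0 → ‖μ‖ < 1 → Compatible ![lam, μ])
    (α : Fin 3 → ℂ) (hα : Converges f l α z) : DMLAt f α := by
  have hz0 : z ≠ 0 := hli.ne_zero 0
  refine ⟨defined_of_lim hd hl hf hz0 hα, ?_⟩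
  rw [deriv_eq] at he he'
  obtain ⟨s, hs⟩ := hα
  exact Pool.Agent.SP82.plane2 hd hl hf hz0 hz hli he he' hμ h0 (compat_pair hC) hs

/-- **Dynamical Mordell-Lang for curves, and in the plane, at points whose orbit converges at any rate,
in the complex topology, to a cycle with at most one multiplier of absolute value one.** -/
theorem result :
    (∀ (N d l m : ℕ) (f : Fin (N + 1) → MvPolynomial (Fin (N + 1)) ℂ) (z : Fin (N + 1) → ℂ)
      (μ : Fin m → ℂ) (lam : ℂ), 2 ≤ d → 1 ≤ l → (∀ i, (f i).IsHomogeneous d) → z ≠ 0 →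
      (cone f)^[l] z = z → OneNeutral f l z μ lam →
      (∀ α, Converges f l α z → ConvergesFast f l α z ∨ CurvesAt f α) ∧
      (Compatible μ → ∀ α, Converges f l α z → SimpleZero f l z ∨ ¬ SuperConvergesTo f l α z →
        CurvesAt f α)) ∧
    (∀ (d l : ℕ) (f : Fin 3 → MvPolynomial (Fin 3) ℂ) (z e e' : Fin 3 → ℂ) (lam μ : ℂ), 2 ≤ d →
      1 ≤ l → (∀ i, (f i).IsHomogeneous d) → (cone f)^[l] z = z →
      LinearIndependent ℂ ![z, e, e'] → (∃ c : ℂ, deriv f l z e = lam • e + c • z) →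
      (∃ c : ℂ, deriv f l z e' = μ • e' + c • z) → ‖μ‖ ≠ 1 → (lam ≠ 0 ∨ μ ≠ 0) →
      (lam ≠ 0 → ‖lam‖ < 1 → μ ≠ 0 → ‖μ‖ < 1 → Compatible ![lam, μ]) →
      ∀ α, Converges f l α z → DMLAt f α) ∧
    (∀ (d : ℕ) (lam μ : ℂ) (Q : Fin 3 → MvPolynomial (Fin 3) ℂ), 2 ≤ d →
      ‖μ‖ ≠ 1 → (lam ≠ 0 ∨ μ ≠ 0) →
      (lam ≠ 0 → ‖lam‖ < 1 → μ ≠ 0 → ‖μ‖ < 1 → Compatible ![lam, μ]) →
      (∀ i, (Q i).IsHomogeneous d) →
      (∀ i, eval ![1, 0, 0] (Q i) = 0) → (∀ i j, eval ![1, 0, 0] (pderiv j (Q i)) = 0) →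
      ∀ α, Converges (example3 d lam μ Q) 1 α ![1, 0, 0] → DMLAt (example3 d lam μ Q) α) := by
  refine ⟨fun N d l m f z μ lam hd hl hf hz0 hz h => ⟨fun α hα => ?_, fun hC α hα hSZ => ⟨?_, ?_⟩⟩,
    fun d l f z e e' lam μ hd hl hf hz hli he he' hμ h0 hC α hα => ?_,
    fun d lam μ Q hd hμ h0 hC hQ hQ0 hQ1 α hα => ?_⟩
  · obtain ⟨ξ, e, hS⟩ := neut_of h
    have hdef := defined_of_lim hd hl hf hz0 hα
    obtain ⟨s, hs⟩ := hα
    rcases Pool.Agent.SP82.main_slow2 hd hl hf hz0 hz hS hs with h1 | h1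
    · exact Or.inl h1
    · exact Or.inr ⟨hdef, h1⟩
  · exact defined_of_lim hd hl hf hz0 hα
  · obtain ⟨ξ, e, hS⟩ := neut_of h
    obtain ⟨s, hs⟩ := hα
    intro S hSh hdim
    refine Pool.Agent.SP82.main_neut hd hl hf hz0 hz hS hC hs ?_ hSh hdim
    rcases hSZ with h1 | h1
    · left
      rw [← deriv_eq]
      exact h1
    · exact Or.inr h1
  · exact plane' hd hl hf hz hli he he' hμ h0 hC α hα
  · have hb : (![1, 0, 0] : Fin 3 → ℂ) = Pool.Agent.KS6_82.Att.e0 := by
      funext i
      fin_cases i <;> rfl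
    rw [hb] at hQ0 hα
    simp only [hb] at hQ1
    obtain ⟨h2, _⟩ := Pool.Agent.KS6_82.Att.fam_data hd ![lam, μ] Q hQ0 hQ1
    rw [example3_eq] at hα ⊢
    have hf := Pool.Agent.KS6_82.Att.fam_hom hd ![lam, μ] hQ
    have he := Pool.Agent.SP82.fam_lin hd ![lam, μ] Q hQ1 0
    have he' := Pool.Agent.SP82.fam_lin hd ![lam, μ] Q hQ1 1
    refine plane' (l := 1) (e := Pi.single (0 : Fin 2).succ 1) (e' := Pi.single (1 : Fin 2).succ 1)
      hd le_rfl hf h2 ?_ ⟨0, ?_⟩ ⟨0, ?_⟩ hμ h0 hC α hα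
    · rw [Fintype.linearIndependent_iff]
      intro g hg
      rw [Fin.sum_univ_three] at hg
      have h0 := congrFun hg 0
      have h1 := congrFun hg 1
      have h2 := congrFun hg 2
      simp [Pool.Agent.KS6_82.Att.e0] at h0 h1 h2
      intro i
      fin_cases i
      · exact h0
      · simpa [h0] using h1
      · simpa [h0] using h2
    · rw [deriv_eq, he, zero_smul, add_zero]
      rfl
    · rw [deriv_eq, he', zero_smul, add_zero]
      rfl

end Pool.Agent.Results.MP_b15c9e_ag.SlowlyConvergentOrbits
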